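import Pool.Agent.H373R2.T7.BilE

set_option autoImplicit false

/-! Moving shifts in families with nearly minimal additive energy of some order. -/

namespace Pool.Agent.E8helper80.MQ
open Finset
open Pool.Agent.H807R2.Dav (ee)
open Pool.Agent.H373R2.T7

/-- the sum over the family -/
lemma l1Q (h : ℕ → ℂ) (hh : ∀ n, ‖h n‖ ≤ 1) (p B : ℕ) (hB : 1 ≤ B) (C : ℝ) (hC : 0 < C) (N : ℕ) (hN : 1 ≤ N)
    (x : ℕ) (hx : 1 ≤ x) (s : ℕ → ℤ) (hs : ∀ m ∈ Icc 1 x, |s m| ≤ ((B * N : ℕ) : ℤ))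
    (hE : (energy p x s : ℝ) * N ≤ C * (x : ℝ) ^ (2 * p)) (δ η : ℝ) (hη : 0 < η)
    (hδ : ∀ β : ℝ, ‖∑ n ∈ Icc 1 (2 * (B * N)), h n * ee ((n : ℝ) * β)‖ ≤ δ * N)
    (A : ℕ) (hA : A ≤ B * N) (G : ℕ → ℂ) (hG : ∀ n, ‖G n‖ ≤ 1) :
    ∑ m ∈ Icc 1 x, ‖∑ a ∈ Icc 1 A, G a * exI h (a + s m)‖ ≤
      ((2 * p + 5) * B * C * δ / η ^ (2 * p) + 2 * B * η) * N * x := by
  have hN0 : (0 : ℝ) < N := by exact_mod_cast hN
  have hx0 : (0 : ℝ) < x := by exact_mod_cast hx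
  have hB0 : (0 : ℝ) < B := by exact_mod_cast hB
  obtain ⟨R, hR⟩ : ∃ R : ℕ, R = B * N := ⟨_, rfl⟩
  have hR1 : 1 ≤ R := by rw [hR]; exact Nat.one_le_iff_ne_zero.2 (Nat.mul_ne_zero (by omega) (by omega))
  have hRr : (R : ℝ) = B * N := by rw [hR]; push_cast; ring
  rw [← hR] at hs hδ hA
  obtain ⟨T, hT⟩ : ∃ T : ℕ, T = p * R := ⟨_, rfl⟩
  obtain ⟨M, hM⟩ : ∃ M : ℕ, M = 2 * T + 5 * R := ⟨_, rfl⟩
  have hM1 : 1 ≤ M := by omega
  have hMr : (M : ℝ) = (2 * p + 5) * B * N := by rw [hM, hT]; push_cast; rw [hRr]; ring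
  have hMpos : (0 : ℝ) < M := by exact_mod_cast hM1
  have hδ0 : 0 ≤ δ * N := (norm_nonneg _).trans (hδ 0)
  have hδ1 : 0 ≤ δ := by
    by_contra h
    push Not at h
    have : δ * N < 0 := mul_neg_of_neg_of_pos h hN0
    linarith
  have hmomE := moment_energy p x s M R hM1 hs (by rw [mul_assoc, ← hT]; omega)
  have hmom : ∑ t ∈ range M, (‖∑ m ∈ Icc 1 x, ee ((t : ℝ) * ((s m : ℝ) / M))‖ / x) ^ (2 * p) ≤ (2 * p + 5) * B * C := by
    have h2 : ∑ t ∈ range M, (‖∑ m ∈ Icc 1 x, ee ((t : ℝ) * ((s m : ℝ) / M))‖ / x) ^ (2 * p) =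
        (M * energy p x s) / (x : ℝ) ^ (2 * p) := by
      rw [← hmomE, sum_div]
      exact sum_congr rfl fun t _ => div_pow _ _ _
    rw [h2, div_le_iff₀ (by positivity), hMr]
    calc (2 * (p : ℝ) + 5) * B * N * energy p x s = (2 * p + 5) * B * (energy p x s * N) := by ring
      _ ≤ (2 * p + 5) * B * (C * (x : ℝ) ^ (2 * p)) := mul_le_mul_of_nonneg_left hE (by positivity)
      _ = _ := by ring
  obtain ⟨S, hS⟩ : ∃ S : ℕ → ℂ, S = fun m => ∑ a ∈ Icc 1 A, G a * exI h (a + s m) := ⟨_, rfl⟩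
  obtain ⟨c, hc⟩ : ∃ c : ℕ → ℂ, c = fun m => (starRingEnd ℂ) (S m) / ‖S m‖ := ⟨_, rfl⟩
  have hc1 : ∀ m, ‖c m‖ ≤ 1 := by
    intro m
    rw [hc]
    simp only [norm_div, RCLike.norm_conj, Complex.norm_real, norm_norm]
    exact div_self_le_one _
  have key := bil_main A (2 * R) x M hM1 h G c s (δ * N) η p ((2 * p + 5) * B * C) ((2 * R : ℕ) : ℝ) (by
      intro a ha m hm n hn
      have h3 := hs m hm
      rw [mem_Icc] at ha hm hn
      rw [abs_le] at h3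
      rw [abs_lt]
      constructor <;> omega) (by omega) (by omega) hx hδ hG hc1 hmom (by
      have h4 : ∀ n ∈ Icc 1 (2 * R), ‖h n‖ ^ 2 ≤ 1 := fun n _ => pow_le_one₀ (norm_nonneg _) (hh n)
      refine (sum_le_sum h4).trans ?_
      rw [sum_const, Nat.card_Icc, nsmul_eq_mul]
      simp) hη
  have heq : ∑ a ∈ Icc 1 A, ∑ m ∈ Icc 1 x, G a * c m * fz h (2 * R) (a + s m) =
      ((∑ m ∈ Icc 1 x, ‖S m‖ : ℝ) : ℂ) := by
    rw [sum_comm]
    push_cast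
    apply sum_congr rfl
    intro m hm
    have e1 : ∑ a ∈ Icc 1 A, G a * c m * fz h (2 * R) (a + s m) = c m * S m := by
      rw [hS, mul_sum]
      apply sum_congr rfl
      intro a ha
      have h3 := hs m hm
      rw [mem_Icc] at ha hm
      rw [abs_le] at h3
      unfold fz exI
      by_cases h4 : 1 ≤ (a : ℤ) + s m
      · rw [if_pos ⟨h4, by push_cast; omega⟩, if_pos h4]
        ring
      · rw [if_neg (fun h5 => h4 h5.1), if_neg h4]
        ring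
    rw [e1, hc]
    simp only
    by_cases h0 : ‖S m‖ = 0
    · rw [norm_eq_zero.1 h0]; simp
    · have h0' : ((‖S m‖ : ℝ) : ℂ) ≠ 0 := by exact_mod_cast h0
      rw [div_mul_eq_mul_div, mul_comm, Complex.mul_conj', pow_two]
      field_simp
  rw [heq, Complex.norm_real, Real.norm_of_nonneg (sum_nonneg fun _ _ => norm_nonneg _)] at key
  rw [hS] at key
  refine key.trans ?_
  have hAr : (A : ℝ) ≤ R := by exact_mod_cast hA
  have hRM : (R : ℝ) ≤ M := by exact_mod_cast (by omega : R ≤ M)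
  have t1 : (2 * p + 5) * B * C / η ^ (2 * p) * (δ * N) * A * x / M ≤ (2 * p + 5) * B * C * δ / η ^ (2 * p) * N * x := by
    rw [div_le_iff₀ hMpos]
    have h6 : 0 ≤ (2 * p + 5) * B * C * δ / η ^ (2 * p) * N * x := by positivity
    calc (2 * p + 5) * B * C / η ^ (2 * p) * (δ * N) * A * x = ((2 * p + 5) * B * C * δ / η ^ (2 * p) * N * x) * A := by ring
      _ ≤ ((2 * p + 5) * B * C * δ / η ^ (2 * p) * N * x) * M := mul_le_mul_of_nonneg_left (hAr.trans hRM) h6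
  have t2 : η * x * Real.sqrt (((2 * R : ℕ) : ℝ) * A) ≤ 2 * B * η * N * x := by
    have h4 : Real.sqrt (((2 * R : ℕ) : ℝ) * A) ≤ 2 * R := by
      rw [Real.sqrt_le_left (by positivity)]
      push_cast
      nlinarith [Nat.cast_nonneg (α := ℝ) A]
    calc η * x * Real.sqrt (((2 * R : ℕ) : ℝ) * A) ≤ η * x * (2 * R) := mul_le_mul_of_nonneg_left h4 (by positivity)
      _ = _ := by rw [hRr]; ring
  calc _ ≤ (2 * p + 5) * B * C * δ / η ^ (2 * p) * N * x + 2 * B * η * N * x := add_le_add t1 t2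
    _ = _ := by ring

open Classical in
/-- from fixed lengths to all lengths -/
lemma grid (x R J : ℕ) (hJ : 1 ≤ J) (hJR : J ≤ R) (F : ℕ → ℕ → ℂ) (hF : ∀ m n, ‖F m n‖ ≤ 1) (θ κ : ℝ) (hθ : 0 < θ)
    (hθR : (R : ℝ) / J ≤ θ / 2)
    (hs : ∀ A ≤ R, ∑ m ∈ Icc 1 x, ‖∑ a ∈ Icc 1 A, F m a‖ ≤ κ * x) :
    (((Icc 1 x).filter (fun m : ℕ => ∃ A : ℕ, A ≤ R ∧ θ < ‖∑ a ∈ Icc 1 A, F m a‖)).card : ℝ) ≤
      (2 * J + 1) * (2 * κ / θ * x) := by
  have hJ0 : (0 : ℝ) < J := by exact_mod_cast hJ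
  obtain ⟨Y, hY⟩ : ∃ Y : ℕ, Y = R / J := ⟨_, rfl⟩
  have hY1 : 1 ≤ Y := by
    rw [hY]
    exact Nat.div_pos (by omega) (by omega)
  have hYN : (Y : ℝ) ≤ θ / 2 := by
    refine le_trans ?_ hθR
    rw [hY]
    exact Nat.cast_div_le
  have hgrid : ∀ j ∈ range (2 * J + 1), (((Icc 1 x).filter (fun m : ℕ => θ / 2 <
      ‖∑ a ∈ Icc 1 (min (j * Y) R), F m a‖)).card : ℝ) ≤ 2 * κ / θ * x := by
    intro j _
    have h2 := hs (min (j * Y) R) (min_le_right _ _)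
    have h3 : ∑ m ∈ (Icc 1 x).filter (fun m : ℕ => θ / 2 < ‖∑ a ∈ Icc 1 (min (j * Y) R), F m a‖), (θ / 2) ≤
        ∑ m ∈ Icc 1 x, ‖∑ a ∈ Icc 1 (min (j * Y) R), F m a‖ := by
      refine le_trans (sum_le_sum (g := fun m => ‖∑ a ∈ Icc 1 (min (j * Y) R), F m a‖) ?_)
        (sum_le_sum_of_subset_of_nonneg (filter_subset _ _) (fun _ _ _ => norm_nonneg _))
      intro t ht
      exact (mem_filter.1 ht).2.le
    rw [sum_const, nsmul_eq_mul] at h3
    have h4 := h3.trans h2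
    rw [← le_div_iff₀ (by positivity)] at h4
    refine h4.trans (le_of_eq ?_)
    field_simp
  have hsub : (Icc 1 x).filter (fun m : ℕ => ∃ A : ℕ, A ≤ R ∧ θ < ‖∑ a ∈ Icc 1 A, F m a‖) ⊆
      (range (2 * J + 1)).biUnion (fun j => (Icc 1 x).filter (fun m : ℕ => θ / 2 <
        ‖∑ a ∈ Icc 1 (min (j * Y) R), F m a‖)) := by
    intro t ht
    rw [mem_filter] at ht
    obtain ⟨ht1, X, hX, hlt⟩ := ht
    rw [mem_biUnion]
    refine ⟨X / Y, ?_, ?_⟩
    · rw [mem_range]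
      have h2 : X / Y ≤ R / Y := Nat.div_le_div_right hX
      have h3 : R / Y < 2 * J + 1 := by
        rw [Nat.div_lt_iff_lt_mul (by omega)]
        have h4 : R < J * (Y + 1) := by
          rw [hY]
          have := Nat.lt_mul_div_succ R (show 0 < J by omega)
          exact this
        nlinarith
      omega
    · rw [mem_filter]
      refine ⟨ht1, ?_⟩
      have h2 : X / Y * Y ≤ X := Nat.div_mul_le_self X Y
      have h3 : X < X / Y * Y + Y := by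
        have := Nat.lt_div_mul_add (a := X) (show 0 < Y by omega)
        exact this
      rw [min_eq_left (h2.trans hX)]
      have hsplit : Icc 1 X = Icc 1 (X / Y * Y) ∪ Ioc (X / Y * Y) X := by
        ext n
        rw [mem_union, mem_Icc, mem_Icc, mem_Ioc]
        omega
      have hdisj : Disjoint (Icc 1 (X / Y * Y)) (Ioc (X / Y * Y) X) := by
        rw [disjoint_left]
        intro n hn hn'
        rw [mem_Icc] at hn
        rw [mem_Ioc] at hn'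
        omega
      rw [hsplit, sum_union hdisj] at hlt
      have h4 : ‖∑ n ∈ Ioc (X / Y * Y) X, F t n‖ ≤ Y := by
        refine (norm_sum_le _ _).trans ?_
        have h5 : ∀ n ∈ Ioc (X / Y * Y) X, ‖F t n‖ ≤ 1 := fun n _ => hF t n
        refine (sum_le_sum h5).trans ?_
        rw [sum_const, Nat.card_Ioc, nsmul_eq_mul, mul_one]
        exact_mod_cast (by omega : X - X / Y * Y ≤ Y)
      have h6 := norm_add_le (∑ n ∈ Icc 1 (X / Y * Y), F t n) (∑ n ∈ Ioc (X / Y * Y) X, F t n)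
      linarith
  refine (Nat.cast_le.2 (card_le_card hsub)).trans ?_
  refine (Nat.cast_le.2 card_biUnion_le).trans ?_
  push_cast
  refine (sum_le_sum hgrid).trans ?_
  rw [sum_const, card_range, nsmul_eq_mul]
  push_cast
  exact le_rfl

open Classical in
/-- **almost all members of a family of shifts** with nearly minimal energy of the order `p` -/
theorem fewQ (p B : ℕ) (hB : 1 ≤ B) (C : ℝ) (hC : 0 < C) (ε : ℝ) (hε : 0 < ε) : ∃ δ : ℝ, 0 < δ ∧ ∃ N₁ : ℕ,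
    ∀ N : ℕ, N₁ ≤ N → ∀ h : ℕ → ℂ, (∀ n, ‖h n‖ ≤ 1) →
      (∀ β : ℝ, ‖∑ n ∈ Icc 1 (2 * (B * N)), h n * ee ((n : ℝ) * β)‖ ≤ δ * N) →
      ∀ x : ℕ, 1 ≤ x → ∀ s : ℕ → ℤ, (∀ m ∈ Icc 1 x, |s m| ≤ ((B * N : ℕ) : ℤ)) →
      (energy p x s : ℝ) * N ≤ C * (x : ℝ) ^ (2 * p) → ∀ G : ℕ → ℂ, (∀ n, ‖G n‖ ≤ 1) →
      (((Icc 1 x).filter (fun m : ℕ => ∃ A : ℕ, A ≤ B * N ∧ ε * N < ‖∑ a ∈ Icc 1 A, G a * exI h (a + s m)‖)).card : ℝ) ≤
        ε * x := by
  have hB0 : (0 : ℝ) < B := by exact_mod_cast hB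
  obtain ⟨J, hJ⟩ := exists_nat_gt (2 * B / ε)
  have hJ0 : (0 : ℝ) < J := lt_trans (by positivity) hJ
  have hJ1 : 1 ≤ J := by exact_mod_cast hJ0
  obtain ⟨κ, hκ⟩ : ∃ κ : ℝ, κ = ε ^ 2 / (2 * (2 * J + 1)) := ⟨_, rfl⟩
  have hκ0 : 0 < κ := by rw [hκ]; positivity
  obtain ⟨η, hη⟩ : ∃ η : ℝ, η = κ / (4 * B) := ⟨_, rfl⟩
  have hη0 : 0 < η := by rw [hη]; positivity
  obtain ⟨δ, hδ⟩ : ∃ δ : ℝ, δ = κ / 2 * η ^ (2 * p) / ((2 * p + 5) * B * C) := ⟨_, rfl⟩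
  have hδ0 : 0 < δ := by rw [hδ]; positivity
  refine ⟨δ, hδ0, J, fun N hN h hh hsup x hx s hs hE G hG => ?_⟩
  have hN1 : 1 ≤ N := by omega
  have hN0 : (0 : ℝ) < N := by exact_mod_cast hN1
  have h1 := grid x (B * N) J hJ1 (hN.trans (Nat.le_mul_of_pos_left N (by omega)))
    (fun m a => G a * exI h (a + s m)) (fun m n => by
      rw [norm_mul]
      refine mul_le_one₀ (hG _) (norm_nonneg _) ?_
      unfold exI
      split_ifs
      · exact hh _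
      · simp) (ε * N) (κ * N) (by positivity) (by
      rw [div_le_iff₀ hJ0]
      rw [div_lt_iff₀ hε] at hJ
      push_cast
      nlinarith) (by
      intro A hA
      refine (l1Q h hh p B hB C hC N hN1 x hx s hs hE δ η hη0 hsup A hA G hG).trans (le_of_eq ?_)
      rw [hδ]
      have e1 : (2 * (p : ℝ) + 5) * B * C * (κ / 2 * η ^ (2 * p) / ((2 * p + 5) * B * C)) / η ^ (2 * p) = κ / 2 := by
        field_simp
      have e2 : 2 * (B : ℝ) * η = κ / 2 := by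
        rw [hη]
        field_simp
        ring
      rw [e1, e2]
      ring)
  refine h1.trans (le_of_eq ?_)
  rw [hκ]
  field_simp

end Pool.Agent.E8helper80.MQ
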