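import Pool.Agent.E8helper80.MQ.Sup
import Pool.Agent.E8helper80.MQ.Bil

set_option autoImplicit false

/-! The Liouville function at the values of an arbitrary function times a moving product of two linear factors. -/

namespace Pool.Agent.E8helper80.MQ
open Finset Polynomial
open Pool.Agent.H807R2.Dav (ee)
open Pool.Agent.H373R2.T7
open Pool.Agent.Y958.U (LZ)

lemma qv_split (α β : ℕ) (a b k : ℤ) : qv α β a b k = exI (fun u => qv α β a b u) k +
    exI (fun u => qv α β (-a) (-b) u) (-k) + (if k = 0 then qv α β a b 0 else 0) := by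
  unfold exI
  rcases lt_trichotomy k 0 with h | h | h
  · rw [if_neg (by omega), if_pos (by omega), if_neg (by omega), zero_add, add_zero]
    have e1 : ((-k).toNat : ℤ) = -k := Int.toNat_of_nonneg (by omega)
    show qv α β a b k = qv α β (-a) (-b) ((-k).toNat : ℤ)
    rw [e1, ← qv_neg, neg_neg]
  · subst h
    rw [if_neg (by omega), if_neg (by omega), if_pos rfl, zero_add, zero_add]
  · rw [if_pos (by omega), if_neg (by omega), if_neg (by omega), add_zero, add_zero]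
    have e1 : (k.toNat : ℤ) = k := Int.toNat_of_nonneg (by omega)
    show qv α β a b k = qv α β a b (k.toNat : ℤ)
    rw [e1]

lemma energy_aff (p x : ℕ) (s : ℕ → ℤ) (σ c : ℤ) (hσ : σ ≠ 0) :
    energy p x (fun m => σ * s m + c) = energy p x s := by
  unfold energy
  congr 1
  apply filter_congr
  intro q _
  simp only [sum_add_distrib, ← mul_sum, add_left_inj]
  exact mul_right_inj' hσ

/-- a symmetric partial sum -/
lemma sym_sum (F : ℤ → ℂ) {X N : ℕ} (hX : X ≤ N) :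
    ∑ v ∈ Icc (-(X : ℤ)) X, F v =
      ∑ j ∈ Icc 1 (N + 1 + X), F ((j : ℤ) - N - 1) - ∑ j ∈ Icc 1 (N - X), F ((j : ℤ) - N - 1) := by
  have h1 : Icc 1 (N + 1 + X) = Icc 1 (N - X) ∪ Icc (N - X + 1) (N + 1 + X) := by
    ext j; simp only [mem_union, mem_Icc]; omega
  have h2 : Disjoint (Icc 1 (N - X)) (Icc (N - X + 1) (N + 1 + X)) := by
    rw [disjoint_left]
    intro j hj hj'
    rw [mem_Icc] at hj hj'
    omega
  rw [h1, sum_union h2, add_sub_cancel_left]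
  refine sum_nbij' (fun v => (v + N + 1).toNat) (fun j => (j : ℤ) - N - 1) ?_ ?_ ?_ ?_ ?_
  · intro v hv
    rw [mem_Icc] at hv ⊢
    omega
  · intro j hj
    rw [mem_Icc] at hj ⊢
    omega
  · intro v hv
    rw [mem_Icc] at hv
    rw [Int.toNat_of_nonneg (by omega)]
    ring
  · intro j hj
    rw [mem_Icc] at hj
    omega
  · intro v hv
    rw [mem_Icc] at hv
    congr 1
    rw [Int.toNat_of_nonneg (by omega)]
    ring

open Classical in
/-- one side, symmetric intervals -/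
lemma sideQ (p B : ℕ) (hB : 1 ≤ B) (C : ℝ) (hC : 0 < C) (ε : ℝ) (hε : 0 < ε) : ∃ δ : ℝ, 0 < δ ∧ ∃ N₁ : ℕ,
    ∀ N : ℕ, N₁ ≤ N → ∀ h : ℕ → ℂ, (∀ n, ‖h n‖ ≤ 1) →
      (∀ β : ℝ, ‖∑ n ∈ Icc 1 (2 * ((B + 3) * N)), h n * ee ((n : ℝ) * β)‖ ≤ δ * N) →
      ∀ x : ℕ, 1 ≤ x → ∀ s : ℕ → ℤ, (∀ m ∈ Icc 1 x, |s m| ≤ ((B * N : ℕ) : ℤ)) →
      (energy p x s : ℝ) * N ≤ C * (x : ℝ) ^ (2 * p) → ∀ w : ℤ → ℂ, (∀ n, ‖w n‖ ≤ 1) →
      (((Icc 1 x).filter (fun m : ℕ => ∃ X : ℕ, X ≤ N ∧ 2 * (ε * N) < ‖∑ v ∈ Icc (-(X : ℤ)) X, w v * exI h (v + s m)‖)).card : ℝ) ≤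
        ε * x := by
  obtain ⟨δ, hδ, N₁, h1⟩ := fewQ p (B + 3) (by omega) C hC ε hε
  refine ⟨δ, hδ, N₁ + 1, fun N hN h hh hsup x hx s hs hE w hw => ?_⟩
  have h2 := h1 N (by omega) h hh hsup x hx (fun m => s m - N - 1) (by
    intro m hm
    have h3 := hs m hm
    rw [abs_le] at h3 ⊢
    have e2 : (((B + 3) * N : ℕ) : ℤ) = ((B * N : ℕ) : ℤ) + 3 * N := by push_cast; ring
    rw [e2]
    constructor <;> omega) (by
    have e3 := energy_aff p x s 1 (-(N : ℤ) - 1) one_ne_zero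
    have e4 : (fun m => 1 * s m + (-(N : ℤ) - 1)) = fun m => s m - N - 1 := by
      funext m
      ring
    rw [e4] at e3
    rw [e3]
    exact hE) (fun j => w ((j : ℤ) - N - 1)) (fun _ => hw _)
  refine le_trans ?_ h2
  apply Nat.cast_le.2
  apply card_le_card
  intro m hm
  rw [mem_filter] at hm ⊢
  refine ⟨hm.1, ?_⟩
  obtain ⟨X, hX, h3⟩ := hm.2
  by_contra hcon
  push Not at hcon
  rw [sym_sum (fun v => w v * exI h (v + s m)) hX] at h3
  have e1 : ∀ A : ℕ, ∑ j ∈ Icc 1 A, w ((j : ℤ) - N - 1) * exI h ((j : ℤ) - N - 1 + s m) =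
      ∑ a ∈ Icc 1 A, w ((a : ℤ) - N - 1) * exI h (a + (s m - N - 1)) := by
    intro A
    apply sum_congr rfl
    intro j _
    have e5 : (j : ℤ) - N - 1 + s m = j + (s m - N - 1) := by ring
    rw [e5]
  rw [e1, e1] at h3
  have hBN : 3 * N ≤ (B + 3) * N := Nat.mul_le_mul_right _ (by omega)
  have h4 := hcon (N + 1 + X) (by omega)
  have h5 := hcon (N - X) (by omega)
  have h6 := norm_sub_le (∑ a ∈ Icc 1 (N + 1 + X), w ((a : ℤ) - N - 1) * exI h (a + (s m - N - 1)))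
    (∑ a ∈ Icc 1 (N - X), w ((a : ℤ) - N - 1) * exI h (a + (s m - N - 1)))
  linarith

open Classical in
/-- **families with nearly minimal energy**, two-sided -/
theorem mainQ : ∃ F : Set ℕ, LZ F ∧ ∀ (α β : ℕ) (a b : ℤ), 1 ≤ α → 1 ≤ β → (α : ℤ) * b ≠ β * a →
    ∀ (p B : ℕ) (C : ℝ), 0 < C → ∀ ε : ℝ, 0 < ε → ∃ N₀ : ℕ, ∀ N : ℕ, N₀ ≤ N → N ∉ F → ∀ x : ℕ, 1 ≤ x →
      ∀ s : ℕ → ℤ, (∀ m ∈ Icc 1 x, |s m| ≤ ((B * N : ℕ) : ℤ)) →
      (energy p x s : ℝ) * N ≤ C * (x : ℝ) ^ (2 * p) → ∀ w : ℤ → ℂ, (∀ n, ‖w n‖ ≤ 1) →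
      (((Icc 1 x).filter (fun m : ℕ => ∃ X : ℕ, X ≤ N ∧ ε * N < ‖∑ v ∈ Icc (-(X : ℤ)) X, w v * qv α β a b (v + s m)‖)).card : ℝ) ≤
        ε * x := by
  obtain ⟨F, hF, hsup⟩ := supQ
  refine ⟨F, hF, fun α β a b hα hβ hab p B₀ C hC ε hε => ?_⟩
  obtain ⟨B, hB⟩ : ∃ B : ℕ, B = B₀ + 1 := ⟨_, rfl⟩
  obtain ⟨δ, hδ, N₁, h1⟩ := sideQ p B (by omega) C hC (ε / 8) (by positivity)
  obtain ⟨N₂, h2⟩ := hsup α β a b hα hβ hab (2 * (B + 3)) (by omega) δ hδ
  obtain ⟨N₃, h3⟩ := hsup α β (-a) (-b) hα hβ (by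
    intro h
    apply hab
    linarith) (2 * (B + 3)) (by omega) δ hδ
  obtain ⟨N₄, h4⟩ := exists_nat_ge (2 / ε)
  refine ⟨N₁ + N₂ + N₃ + N₄ + 1, fun N hN hNF x hx s hs hE w hw => ?_⟩
  have hN0 : (0 : ℝ) < N := by exact_mod_cast (by omega : 0 < N)
  have hN4 : 2 / ε ≤ (N : ℝ) := h4.trans (by exact_mod_cast (by omega : N₄ ≤ N))
  have hε1 : 1 ≤ ε / 2 * N := by
    rw [div_le_iff₀ hε] at hN4
    linarith
  have hs' : ∀ m ∈ Icc 1 x, |s m| ≤ ((B * N : ℕ) : ℤ) := by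
    intro m hm
    refine (hs m hm).trans ?_
    have : B₀ * N ≤ B * N := Nat.mul_le_mul_right _ (by omega)
    exact_mod_cast this
  have g1 := h1 N (by omega) (fun u => qv α β a b u) (fun n => qv_norm _ _ _ _ _)
    (fun θ => h2 N (by omega) hNF θ _ (by rw [mul_assoc])) x hx s hs' hE w hw
  have g2 := h1 N (by omega) (fun u => qv α β (-a) (-b) u) (fun n => qv_norm _ _ _ _ _)
    (fun θ => h3 N (by omega) hNF θ _ (by rw [mul_assoc])) x hx (fun m => -s m) (fun m hm => by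
      rw [abs_neg]
      exact hs' m hm) (by
      have e3 := energy_aff p x s (-1) 0 (by norm_num)
      have e4 : (fun m => -1 * s m + 0) = fun m => -s m := by
        funext m
        ring
      rw [e4] at e3
      rw [e3]
      exact hE) (fun v => w (-v)) (fun _ => hw _)
  have hsub : (Icc 1 x).filter (fun m : ℕ => ∃ X : ℕ, X ≤ N ∧ ε * N <
      ‖∑ v ∈ Icc (-(X : ℤ)) X, w v * qv α β a b (v + s m)‖) ⊆
      (Icc 1 x).filter (fun m : ℕ => ∃ X : ℕ, X ≤ N ∧ 2 * (ε / 8 * N) <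
        ‖∑ v ∈ Icc (-(X : ℤ)) X, w v * exI (fun u => qv α β a b u) (v + s m)‖) ∪
      (Icc 1 x).filter (fun m : ℕ => ∃ X : ℕ, X ≤ N ∧ 2 * (ε / 8 * N) <
        ‖∑ v ∈ Icc (-(X : ℤ)) X, w (-v) * exI (fun u => qv α β (-a) (-b) u) (v + -s m)‖) := by
    intro m hm
    rw [mem_filter] at hm
    obtain ⟨hm1, X, hX, hlt⟩ := hm
    rw [mem_union, mem_filter, mem_filter]
    by_contra hcon
    push Not at hcon
    have k1 := hcon.1 hm1 X hX
    have k2 := hcon.2 hm1 X hX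
    have e5 : ∑ v ∈ Icc (-(X : ℤ)) X, w (-v) * exI (fun u => qv α β (-a) (-b) u) (v + -s m) =
        ∑ v ∈ Icc (-(X : ℤ)) X, w v * exI (fun u => qv α β (-a) (-b) u) (-(v + s m)) := by
      apply sum_nbij' (fun v => -v) (fun v => -v)
      · intro v hv
        rw [mem_Icc] at hv ⊢
        omega
      · intro v hv
        rw [mem_Icc] at hv ⊢
        omega
      · intro v _
        ring
      · intro v _
        ring
      · intro v _
        congr 2
        ring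
    rw [e5] at k2
    have e6 : ∑ v ∈ Icc (-(X : ℤ)) X, w v * qv α β a b (v + s m) =
        ∑ v ∈ Icc (-(X : ℤ)) X, w v * exI (fun u => qv α β a b u) (v + s m) +
        ∑ v ∈ Icc (-(X : ℤ)) X, w v * exI (fun u => qv α β (-a) (-b) u) (-(v + s m)) +
        ∑ v ∈ Icc (-(X : ℤ)) X, w v * (if v + s m = 0 then qv α β a b 0 else 0) := by
      rw [← sum_add_distrib, ← sum_add_distrib]
      apply sum_congr rfl
      intro v _
      rw [qv_split α β a b (v + s m)]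
      ring
    have k3 : ‖∑ v ∈ Icc (-(X : ℤ)) X, w v * (if v + s m = 0 then qv α β a b 0 else 0)‖ ≤ 1 := by
      have e7 : ∑ v ∈ Icc (-(X : ℤ)) X, w v * (if v + s m = 0 then qv α β a b 0 else 0) =
          if -s m ∈ Icc (-(X : ℤ)) X then w (-s m) * qv α β a b 0 else 0 := by
        rw [← sum_ite_eq' (Icc (-(X : ℤ)) X) (-s m) (fun v => w v * qv α β a b 0)]
        apply sum_congr rfl
        intro v _
        by_cases hv : v + s m = 0
        · rw [if_pos hv, if_pos (by omega)]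
        · rw [if_neg hv, if_neg (by omega), mul_zero]
      rw [e7]
      split_ifs
      · rw [norm_mul]
        exact mul_le_one₀ (hw _) (norm_nonneg _) (qv_norm _ _ _ _ _)
      · simp
    rw [e6] at hlt
    have k4 := norm_add₃_le (a := ∑ v ∈ Icc (-(X : ℤ)) X, w v * exI (fun u => qv α β a b u) (v + s m))
      (b := ∑ v ∈ Icc (-(X : ℤ)) X, w v * exI (fun u => qv α β (-a) (-b) u) (-(v + s m)))
      (c := ∑ v ∈ Icc (-(X : ℤ)) X, w v * (if v + s m = 0 then qv α β a b 0 else 0))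
    linarith
  refine (Nat.cast_le.2 (card_le_card hsub)).trans ?_
  refine (Nat.cast_le.2 (card_union_le _ _)).trans ?_
  push_cast
  refine (add_le_add g1 g2).trans ?_
  have hx0 : (0 : ℝ) ≤ x := Nat.cast_nonneg x
  nlinarith

/-- polynomial values have nearly minimal energy of some order -/
lemma energy_polyZ (f : ℤ[X]) (hd : 1 ≤ f.natDegree) :
    ∃ p : ℕ, ∃ C : ℝ, 0 < C ∧ ∀ x : ℕ, 1 ≤ x →
      (energy p x (fun m => f.eval (m : ℤ)) : ℝ) * (x : ℝ) ^ f.natDegree ≤ C * (x : ℝ) ^ (2 * p) := by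
  rcases lt_trichotomy f.leadingCoeff 0 with h | h | h
  · obtain ⟨p, C, hC, hE⟩ := energy_poly (-f) (by rwa [natDegree_neg]) (by rw [leadingCoeff_neg]; omega)
    refine ⟨p, C, hC, fun x hx => ?_⟩
    have := hE x hx
    rw [natDegree_neg] at this
    have e : energy p x (fun m => (-f).eval (m : ℤ)) = energy p x (fun m => f.eval (m : ℤ)) := by
      unfold energy
      congr 1
      apply filter_congr
      intro q _
      simp only [eval_neg, sum_neg_distrib, neg_inj]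
    rw [e] at this
    exact this
  · rw [leadingCoeff_eq_zero] at h
    subst h
    simp at hd
  · exact energy_poly f hd h

open Classical in
/-- **polynomial shifts**, all residue classes -/
theorem polyQ : ∃ F : Set ℕ, LZ F ∧ ∀ (α β : ℕ) (a b : ℤ), 1 ≤ α → 1 ≤ β → (α : ℤ) * b ≠ β * a →
    ∀ P : ℤ[X], 1 ≤ P.natDegree → ∀ (B : ℕ) (ε : ℝ), 0 < ε → ∃ N₀ : ℕ, ∀ N : ℕ, N₀ ≤ N → N ∉ F →
      ∀ x : ℕ, N ≤ B * x ^ P.natDegree → x ^ P.natDegree ≤ B * N → ∀ c : ℤ, |c| ≤ B * N →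
      ∀ w : ℤ → ℂ, (∀ n, ‖w n‖ ≤ 1) →
      (((Icc 1 x).filter (fun m : ℕ => ∃ q : ℕ, (1 ≤ q ∧ q ≤ B) ∧ ∃ r : ℤ, ∃ X : ℕ, X ≤ N ∧ ε * N <
        ‖∑ v ∈ (Icc (-(X : ℤ)) X).filter (fun v => v ≡ r [ZMOD q]), w v * qv α β a b (v + (c + P.eval (m : ℤ)))‖)).card : ℝ) ≤
        ε * x := by
  obtain ⟨F, hF, hmain⟩ := mainQ
  refine ⟨F, hF, fun α β a b hα hβ hab P hP B ε hε => ?_⟩
  obtain ⟨p, C, hC, hE⟩ := energy_polyZ P hP
  obtain ⟨N₀, h1⟩ := hmain α β a b hα hβ hab p (B + cf P * B) ((B + 1) * C) (by positivity) (ε / ((B + 1) * (B + 1)))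
    (by positivity)
  refine ⟨N₀ + 1, fun N hN hNF x hx1 hx2 c hc w hw => ?_⟩
  have hN0 : (0 : ℝ) < N := by exact_mod_cast (by omega : 0 < N)
  have hx : 1 ≤ x := by
    rcases Nat.eq_zero_or_pos x with h | h
    · subst h
      rw [zero_pow (by omega), mul_zero] at hx1
      omega
    · exact h
  have hx0 : (0 : ℝ) < x := by exact_mod_cast hx
  have hsz : ∀ m ∈ Icc 1 x, |c + P.eval (m : ℤ)| ≤ (((B + cf P * B) * N : ℕ) : ℤ) := by
    intro m hm
    rw [mem_Icc] at hm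
    refine (abs_add_le _ _).trans ?_
    have q1 := abs_eval_le P m hm.1
    have q2 : (m : ℤ) ^ P.natDegree ≤ B * N := by
      have q3 : m ^ P.natDegree ≤ B * N := (Nat.pow_le_pow_left hm.2 _).trans hx2
      exact_mod_cast q3
    have q4 : (cf P : ℤ) * (m : ℤ) ^ P.natDegree ≤ cf P * (B * N) := mul_le_mul_of_nonneg_left q2 (by positivity)
    push_cast
    linarith
  have hEN : (energy p x (fun m => c + P.eval (m : ℤ)) : ℝ) * N ≤ ((B + 1) * C) * (x : ℝ) ^ (2 * p) := by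
    have e3 := energy_aff p x (fun m => P.eval (m : ℤ)) 1 c one_ne_zero
    have e4 : (fun m : ℕ => 1 * P.eval (m : ℤ) + c) = fun m : ℕ => c + P.eval (m : ℤ) := by
      funext m
      ring
    rw [e4] at e3
    rw [e3]
    have h2 : (N : ℝ) ≤ (B + 1) * (x : ℝ) ^ P.natDegree := by
      have h3 : (N : ℝ) ≤ B * (x : ℝ) ^ P.natDegree := by exact_mod_cast hx1
      have h4 : (0 : ℝ) ≤ (x : ℝ) ^ P.natDegree := by positivity
      linarith
    calc (energy p x (fun m => P.eval (m : ℤ)) : ℝ) * N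
        ≤ (energy p x (fun m => P.eval (m : ℤ)) : ℝ) * ((B + 1) * (x : ℝ) ^ P.natDegree) :=
          mul_le_mul_of_nonneg_left h2 (by positivity)
      _ = (B + 1) * ((energy p x (fun m => P.eval (m : ℤ)) : ℝ) * (x : ℝ) ^ P.natDegree) := by ring
      _ ≤ (B + 1) * (C * (x : ℝ) ^ (2 * p)) := mul_le_mul_of_nonneg_left (hE x hx) (by positivity)
      _ = _ := by ring
  have h2 : ∀ e ∈ range (B + 1) ×ˢ range (B + 1), (((Icc 1 x).filter (fun m : ℕ => ∃ X : ℕ, X ≤ N ∧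
      ε / ((B + 1) * (B + 1)) * N < ‖∑ v ∈ Icc (-(X : ℤ)) X, (if v ≡ e.2 [ZMOD e.1] then w v else 0) *
        qv α β a b (v + (c + P.eval (m : ℤ)))‖)).card : ℝ) ≤ ε / ((B + 1) * (B + 1)) * x := by
    intro e _
    exact h1 N (by omega) hNF x hx _ hsz hEN (fun v => if v ≡ e.2 [ZMOD e.1] then w v else 0) (fun v => by
      split_ifs
      · exact hw v
      · simp)
  have hsub : (Icc 1 x).filter (fun m : ℕ => ∃ q : ℕ, (1 ≤ q ∧ q ≤ B) ∧ ∃ r : ℤ, ∃ X : ℕ, X ≤ N ∧ ε * N <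
        ‖∑ v ∈ (Icc (-(X : ℤ)) X).filter (fun v => v ≡ r [ZMOD q]), w v * qv α β a b (v + (c + P.eval (m : ℤ)))‖) ⊆
      (range (B + 1) ×ˢ range (B + 1)).biUnion (fun e => (Icc 1 x).filter (fun m : ℕ => ∃ X : ℕ, X ≤ N ∧
      ε / ((B + 1) * (B + 1)) * N < ‖∑ v ∈ Icc (-(X : ℤ)) X, (if v ≡ e.2 [ZMOD e.1] then w v else 0) *
        qv α β a b (v + (c + P.eval (m : ℤ)))‖)) := by
    intro m hm
    rw [mem_filter] at hm
    obtain ⟨hm1, q, ⟨hq1, hq2⟩, r, X, hX, hlt⟩ := hm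
    rw [mem_biUnion]
    have hr0 : 0 ≤ r % (q : ℤ) := Int.emod_nonneg _ (by omega)
    have hr1 : r % (q : ℤ) < q := Int.emod_lt_of_pos _ (by omega)
    refine ⟨(q, (r % (q : ℤ)).toNat), ?_, ?_⟩
    · rw [mem_product, mem_range, mem_range]
      refine ⟨by omega, ?_⟩
      show (r % (q : ℤ)).toNat < B + 1
      omega
    · rw [mem_filter]
      refine ⟨hm1, X, hX, ?_⟩
      have e1 : ∑ v ∈ Icc (-(X : ℤ)) X, (if v ≡ ((r % (q : ℤ)).toNat : ℕ) [ZMOD q] then w v else 0) *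
          qv α β a b (v + (c + P.eval (m : ℤ))) =
          ∑ v ∈ (Icc (-(X : ℤ)) X).filter (fun v => v ≡ r [ZMOD q]), w v * qv α β a b (v + (c + P.eval (m : ℤ))) := by
        rw [sum_filter]
        apply sum_congr rfl
        intro v _
        have e2 : (v ≡ ((r % (q : ℤ)).toNat : ℕ) [ZMOD q]) ↔ (v ≡ r [ZMOD q]) := by
          rw [Int.toNat_of_nonneg hr0]
          constructor
          · intro h
            exact h.trans (Int.mod_modEq _ _)
          · intro h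
            exact h.trans (Int.mod_modEq _ _).symm
        simp only [e2]
        split_ifs
        · rfl
        · rw [zero_mul]
      show ε / ((B + 1) * (B + 1)) * N < ‖∑ v ∈ Icc (-(X : ℤ)) X,
        (if v ≡ ((r % (q : ℤ)).toNat : ℕ) [ZMOD q] then w v else 0) * qv α β a b (v + (c + P.eval (m : ℤ)))‖
      rw [e1]
      refine lt_of_le_of_lt ?_ hlt
      apply mul_le_mul_of_nonneg_right _ hN0.le
      apply div_le_self hε.le
      have : (0 : ℝ) ≤ B := Nat.cast_nonneg B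
      nlinarith
  refine (Nat.cast_le.2 (card_le_card hsub)).trans ?_
  refine (Nat.cast_le.2 card_biUnion_le).trans ?_
  push_cast
  refine (sum_le_sum h2).trans ?_
  rw [sum_const, card_product, card_range, nsmul_eq_mul]
  push_cast
  apply le_of_eq
  field_simp

end Pool.Agent.E8helper80.MQ
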