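import Pool.Agent.E8helper80.MP.Pair
import Pool.Agent.H373R2.T7.BilE

set_option autoImplicit false

/-! The Liouville function at the values of a product of two linear polynomials with integer coefficients: exponential
sums, uniformly in the phase and over the partial sums, at almost all scales. -/

namespace Pool.Agent.E8helper80.MQ
open Finset
open Pool.Agent.H807R2.Dav (ee norm_ee ee_add)
open Pool.Agent.Y958.U (LZ)
open Pool.Agent.Y842.EL (LZ_pull LZ_diag LZ_empty)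
open Pool.Agent.H373R2.T7 (orth)
open Pool.Agent.E8helper80.MP (pr pair_scales)

/-- the Liouville function on the integers -/
noncomputable def lamZ (m : ℤ) : ℂ := if m = 0 then 0 else (-1) ^ ArithmeticFunction.cardFactors m.natAbs

lemma lamZ_mul (m n : ℤ) : lamZ (m * n) = lamZ m * lamZ n := by
  unfold lamZ
  by_cases hm : m = 0
  · simp [hm]
  by_cases hn : n = 0
  · simp [hn]
  rw [if_neg (mul_ne_zero hm hn), if_neg hm, if_neg hn, Int.natAbs_mul,
    ArithmeticFunction.cardFactors_mul (Int.natAbs_ne_zero.2 hm) (Int.natAbs_ne_zero.2 hn), pow_add]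

lemma lamZ_neg (m : ℤ) : lamZ (-m) = lamZ m := by
  unfold lamZ
  rw [Int.natAbs_neg]
  simp only [neg_eq_zero]

lemma lamZ_norm (m : ℤ) : ‖lamZ m‖ ≤ 1 := by
  unfold lamZ
  split_ifs
  · simp
  · rw [norm_pow, norm_neg, norm_one, one_pow]

lemma lamZ_nat (n : ℕ) (hn : 1 ≤ n) : lamZ n = (-1 : ℂ) ^ ArithmeticFunction.cardFactors n := by
  unfold lamZ
  rw [if_neg (by exact_mod_cast (by omega : n ≠ 0)), Int.natAbs_natCast]

/-- the complex-valued Liouville function on the natural numbers -/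
noncomputable def lC (n : ℕ) : ℂ := (-1) ^ ArithmeticFunction.cardFactors n

/-- two shifts -/
theorem base : ∃ E : Set ℕ, LZ E ∧ ∀ a c : ℕ, a ≠ c → ∀ ε : ℝ, 0 < ε → ∃ N₀ : ℕ, ∀ N : ℕ, N₀ ≤ N → N ∉ E →
      ∀ (β : ℝ) (y : ℕ), y ≤ 4 * N →
        ‖∑ n ∈ Icc 1 y, lC (n + a) * lC (n + c) * ee ((n : ℝ) * β)‖ ≤ ε * N := by
  obtain ⟨E, hE, h⟩ := pair_scales (fun _ => (0 : Fin 1)) (fun _ => 1) (fun _ => by simp) lC
    (fun n _ => by unfold lC; rw [norm_pow, norm_neg, norm_one, one_pow])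
    (fun m n hm hn _ => by
      unfold lC
      rw [ArithmeticFunction.cardFactors_mul (by omega) (by omega), pow_add])
  refine ⟨E, hE, fun a c hac ε hε => ?_⟩
  obtain ⟨N₀, h1⟩ := h a c hac ε hε
  refine ⟨N₀, fun N hN hNE β y hy => ?_⟩
  refine le_trans (le_of_eq ?_) (h1 N hN hNE β y hy)
  congr 1
  apply sum_congr rfl
  intro n hn
  rw [mem_Icc] at hn
  unfold pr
  rw [if_pos hn.1, one_mul]
  rfl

/-- multiples of `D` -/
lemma multiples (H : ℕ → ℂ) (D : ℕ) (hD : 1 ≤ D) (δ : ℝ) (y : ℕ)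
    (h : ∀ β : ℝ, ‖∑ n ∈ Icc 1 (D * y), H n * ee ((n : ℝ) * β)‖ ≤ δ) (β : ℝ) :
    ‖∑ u ∈ Icc 1 y, H (D * u) * ee ((u : ℝ) * β)‖ ≤ δ := by
  have hD0 : (0 : ℝ) < D := by exact_mod_cast hD
  have h1 : ∑ t ∈ range D, ∑ n ∈ Icc 1 (D * y), H n * ee ((n : ℝ) * (β / D + t / D)) =
      D * ∑ u ∈ Icc 1 y, H (D * u) * ee ((u : ℝ) * β) := by
    rw [sum_comm]
    have h2 : ∀ n ∈ Icc 1 (D * y), ∑ t ∈ range D, H n * ee ((n : ℝ) * (β / D + t / D)) =
        if (D : ℤ) ∣ (n : ℤ) then (D : ℂ) * (H n * ee ((n : ℝ) * (β / D))) else 0 := by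
      intro n _
      have h3 : ∀ t ∈ range D, H n * ee ((n : ℝ) * (β / D + t / D)) =
          H n * ee ((n : ℝ) * (β / D)) * ee ((t : ℝ) * (((n : ℤ) : ℝ) / D)) := by
        intro t _
        have e1 : (n : ℝ) * (β / D + t / D) = (n : ℝ) * (β / D) + (t : ℝ) * (((n : ℤ) : ℝ) / D) := by
          push_cast
          ring
        rw [e1, ee_add]
        ring
      rw [sum_congr rfl h3, ← mul_sum, orth D hD (n : ℤ)]
      split_ifs
      · ring
      · ring
    rw [sum_congr rfl h2, ← sum_filter, mul_sum]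
    symm
    apply sum_nbij' (fun u => D * u) (fun n => n / D)
    · intro u hu
      rw [mem_Icc] at hu
      rw [mem_filter, mem_Icc]
      refine ⟨⟨?_, Nat.mul_le_mul_left _ hu.2⟩, ?_⟩
      · exact Nat.one_le_iff_ne_zero.2 (by
          have := Nat.mul_ne_zero (by omega : D ≠ 0) (by omega : u ≠ 0)
          exact this)
      · push_cast
        exact dvd_mul_right _ _
    · intro n hn
      rw [mem_filter, mem_Icc] at hn
      obtain ⟨⟨h3, h4⟩, h5⟩ := hn
      have h6 : D ∣ n := by exact_mod_cast h5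
      rw [mem_Icc]
      obtain ⟨k, rfl⟩ := h6
      rw [Nat.mul_div_cancel_left k (by omega)]
      constructor
      · rcases Nat.eq_zero_or_pos k with hk | hk
        · subst hk; simp at h3
        · exact hk
      · exact Nat.le_of_mul_le_mul_left h4 (by omega)
    · intro u _
      exact Nat.mul_div_cancel_left u (by omega)
    · intro n hn
      rw [mem_filter] at hn
      have h6 : D ∣ n := by exact_mod_cast hn.2
      exact Nat.mul_div_cancel' h6
    · intro u _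
      have e1 : ((D * u : ℕ) : ℝ) * (β / D) = (u : ℝ) * β := by
        push_cast
        field_simp
      rw [e1]
  have h4 : ‖∑ t ∈ range D, ∑ n ∈ Icc 1 (D * y), H n * ee ((n : ℝ) * (β / D + t / D))‖ ≤ D * δ := by
    refine (norm_sum_le _ _).trans ?_
    have h5 : ∀ t ∈ range D, ‖∑ n ∈ Icc 1 (D * y), H n * ee ((n : ℝ) * (β / D + t / D))‖ ≤ δ := fun t _ => h _
    refine (sum_le_sum h5).trans ?_
    rw [sum_const, card_range, nsmul_eq_mul]
  rw [h1, norm_mul, Complex.norm_natCast] at h4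
  exact le_of_mul_le_mul_left h4 hD0

/-- a shift of the variable -/
lemma shift_le (F : ℕ → ℂ) (hF : ∀ n, ‖F n‖ ≤ 1) (M y : ℕ) (β δ : ℝ) (hδ : 0 ≤ δ)
    (h : ‖∑ u ∈ Icc 1 (y - M), F (u + M) * ee ((u : ℝ) * β)‖ ≤ δ) :
    ‖∑ u ∈ Icc 1 y, F u * ee ((u : ℝ) * β)‖ ≤ M + δ := by
  have hb : ∀ n : ℕ, ‖F n * ee ((n : ℝ) * β)‖ ≤ 1 := fun n => by
    rw [norm_mul, norm_ee, mul_one]
    exact hF n
  rcases le_or_gt y M with hy | hy
  · refine (norm_sum_le _ _).trans ?_
    refine (sum_le_sum (fun n _ => hb n)).trans ?_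
    rw [sum_const, Nat.card_Icc, nsmul_eq_mul, mul_one, Nat.add_sub_cancel]
    have : (y : ℝ) ≤ M := by exact_mod_cast hy
    linarith
  · have h1 : Icc 1 y = Icc 1 M ∪ Icc (M + 1) y := by
      ext j; simp only [mem_union, mem_Icc]; omega
    have h2 : Disjoint (Icc 1 M) (Icc (M + 1) y) := by
      rw [disjoint_left]
      intro j hj hj'
      rw [mem_Icc] at hj hj'
      omega
    rw [h1, sum_union h2]
    refine (norm_add_le _ _).trans (add_le_add ?_ ?_)
    · refine (norm_sum_le _ _).trans ?_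
      refine (sum_le_sum (fun n _ => hb n)).trans ?_
      rw [sum_const, Nat.card_Icc, nsmul_eq_mul, mul_one, Nat.add_sub_cancel]
    · have h3 : ∑ u ∈ Icc (M + 1) y, F u * ee ((u : ℝ) * β) =
          ee ((M : ℝ) * β) * ∑ u ∈ Icc 1 (y - M), F (u + M) * ee ((u : ℝ) * β) := by
        rw [mul_sum]
        symm
        apply sum_nbij' (fun u => u + M) (fun n => n - M)
        · intro u hu
          rw [mem_Icc] at hu ⊢
          omega
        · intro u hu
          rw [mem_Icc] at hu ⊢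
          omega
        · intro u _
          omega
        · intro u hu
          rw [mem_Icc] at hu
          omega
        · intro u _
          have e1 : ((u + M : ℕ) : ℝ) * β = (M : ℝ) * β + (u : ℝ) * β := by
            push_cast
            ring
          rw [e1, ee_add]
          ring
      rw [h3, norm_mul, norm_ee, one_mul]
      exact h

/-- the product of two linear factors -/
noncomputable def qv (α β : ℕ) (a b : ℤ) (k : ℤ) : ℂ := lamZ ((α * k + a) * (β * k + b))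

lemma qv_norm (α β : ℕ) (a b k : ℤ) : ‖qv α β a b k‖ ≤ 1 := lamZ_norm _

lemma qv_neg (α β : ℕ) (a b k : ℤ) : qv α β a b (-k) = qv α β (-a) (-b) k := by
  unfold qv
  congr 1
  ring

/-- **exponential sums** over the values of a product of two linear factors -/
theorem supQ : ∃ F : Set ℕ, LZ F ∧ ∀ (α β : ℕ) (a b : ℤ), 1 ≤ α → 1 ≤ β → (α : ℤ) * b ≠ β * a → ∀ K : ℕ, 1 ≤ K →
    ∀ ε : ℝ, 0 < ε → ∃ N₀ : ℕ, ∀ N : ℕ, N₀ ≤ N → N ∉ F → ∀ (θ : ℝ) (y : ℕ), y ≤ K * N →
      ‖∑ u ∈ Icc 1 y, qv α β a b u * ee ((u : ℝ) * θ)‖ ≤ ε * N := by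
  obtain ⟨E, hE, h⟩ := base
  obtain ⟨F, hF, hdiag⟩ := LZ_diag (fun j => if j = 0 then ∅ else {N | j * N + 0 ∈ E}) (by
    intro j
    split_ifs with hj
    · exact LZ_empty
    · exact LZ_pull hE j 0 (by omega))
  refine ⟨F, hF, fun α β a b hα hβ hab K hK ε hε => ?_⟩
  obtain ⟨D, hD⟩ : ∃ D : ℕ, D = α * β := ⟨_, rfl⟩
  have hD1 : 1 ≤ D := by rw [hD]; exact Nat.one_le_iff_ne_zero.2 (Nat.mul_ne_zero (by omega) (by omega))
  obtain ⟨M, hM⟩ : ∃ M : ℕ, M = (β * a).natAbs + (α * b).natAbs + 1 := ⟨_, rfl⟩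
  have hDM : (M : ℤ) ≤ D * M := by
    have h1 : (1 : ℤ) ≤ D := by exact_mod_cast hD1
    nlinarith [Int.natCast_nonneg M]
  have hMa : 0 ≤ (D : ℤ) * M + β * a := by
    have h1 : -(β * a : ℤ) ≤ ((β * a : ℤ).natAbs : ℤ) := by omega
    have h2 : (((β * a : ℤ).natAbs : ℕ) : ℤ) ≤ (M : ℤ) := by exact_mod_cast (by omega : (β * a : ℤ).natAbs ≤ M)
    linarith
  have hMb : 0 ≤ (D : ℤ) * M + α * b := by
    have h1 : -(α * b : ℤ) ≤ ((α * b : ℤ).natAbs : ℤ) := by omega
    have h2 : (((α * b : ℤ).natAbs : ℕ) : ℤ) ≤ (M : ℤ) := by exact_mod_cast (by omega : (α * b : ℤ).natAbs ≤ M)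
    linarith
  obtain ⟨A₁, hA₁⟩ := Int.eq_ofNat_of_zero_le hMa
  obtain ⟨A₂, hA₂⟩ := Int.eq_ofNat_of_zero_le hMb
  have hne : A₁ ≠ A₂ := by
    intro h1
    apply hab
    have : (A₁ : ℤ) = A₂ := by exact_mod_cast h1
    linarith
  obtain ⟨N₁, h1⟩ := h A₁ A₂ hne (ε / (2 * (K * D))) (by positivity)
  obtain ⟨N₂, h2⟩ := hdiag (K * D)
  obtain ⟨N₃, h3⟩ := exists_nat_ge (2 * M / ε)
  refine ⟨N₁ + N₂ + N₃, fun N hN hNF θ y hy => ?_⟩
  have hKD : 1 ≤ K * D := Nat.one_le_iff_ne_zero.2 (Nat.mul_ne_zero (by omega) (by omega))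
  have hKDr : (0 : ℝ) < (K : ℝ) * D := by exact_mod_cast (by omega : 0 < K * D)
  have hNE : K * D * N ∉ E := by
    intro h4
    apply hNF
    refine h2 N (by omega) ?_
    rw [if_neg (by omega)]
    exact h4
  have hNr : (N₃ : ℝ) ≤ N := by exact_mod_cast (by omega : N₃ ≤ N)
  have hM2 : (M : ℝ) ≤ ε / 2 * N := by
    have h4 := h3.trans hNr
    rw [div_le_iff₀ hε] at h4
    linarith
  have h5 := h1 (K * D * N) (by nlinarith) hNE
  -- the pair
  have h6 : ‖∑ u ∈ Icc 1 (y - M), (lC (D * u + A₁) * lC (D * u + A₂)) * ee ((u : ℝ) * θ)‖ ≤ ε / 2 * N := by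
    have h7 := multiples (fun n => lC (n + A₁) * lC (n + A₂)) D hD1 (ε / (2 * (K * D)) * (K * D * N : ℕ)) (y - M)
      (fun β' => h5 β' (D * (y - M)) (by
        have h8 : y - M ≤ K * N := by omega
        calc D * (y - M) ≤ D * (K * N) := Nat.mul_le_mul_left _ h8
          _ = 1 * (K * D * N) := by ring
          _ ≤ 4 * (K * D * N) := Nat.mul_le_mul_right _ (by omega))) θ
    refine h7.trans (le_of_eq ?_)
    push_cast
    field_simp
  have h8 : ∀ u : ℕ, 1 ≤ u → qv α β a b ((u + M : ℕ) : ℤ) = lamZ (α * β) * (lC (D * u + A₁) * lC (D * u + A₂)) := by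
    intro u hu
    have e1 : lamZ (α * β) * lamZ (α * β) = 1 := by
      have h9 : ((α : ℤ) * β) ≠ 0 := mul_ne_zero (by omega) (by omega)
      unfold lamZ
      rw [if_neg h9, ← pow_add, ← two_mul, pow_mul]
      norm_num
    have e2 : lamZ (((β * (α * ((u + M : ℕ) : ℤ) + a)) * (α * (β * ((u + M : ℕ) : ℤ) + b)))) =
        lamZ (α * β) * qv α β a b ((u + M : ℕ) : ℤ) := by
      unfold qv
      rw [← lamZ_mul]
      congr 1
      ring
    have e3 : (β * (α * ((u + M : ℕ) : ℤ) + a)) = ((D * u + A₁ : ℕ) : ℤ) := by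
      push_cast
      rw [← hA₁, hD]
      push_cast
      ring
    have e4 : (α * (β * ((u + M : ℕ) : ℤ) + b)) = ((D * u + A₂ : ℕ) : ℤ) := by
      push_cast
      rw [← hA₂, hD]
      push_cast
      ring
    have hDu : 1 ≤ D * u := Nat.one_le_iff_ne_zero.2 (Nat.mul_ne_zero (by omega) (by omega))
    rw [e3, e4, lamZ_mul, lamZ_nat _ (by omega), lamZ_nat _ (by omega)] at e2
    calc qv α β a b ((u + M : ℕ) : ℤ) = (lamZ (α * β) * lamZ (α * β)) * qv α β a b ((u + M : ℕ) : ℤ) := by rw [e1, one_mul]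
      _ = lamZ (α * β) * (lC (D * u + A₁) * lC (D * u + A₂)) := by
        rw [mul_assoc, ← e2]
        rfl
  have h9 := shift_le (fun u => qv α β a b (u : ℤ)) (fun n => qv_norm _ _ _ _ _) M y θ (ε / 2 * N) (by positivity) (by
    have h10 : ∑ u ∈ Icc 1 (y - M), qv α β a b ((u + M : ℕ) : ℤ) * ee ((u : ℝ) * θ) =
        lamZ (α * β) * ∑ u ∈ Icc 1 (y - M), (lC (D * u + A₁) * lC (D * u + A₂)) * ee ((u : ℝ) * θ) := by
      rw [mul_sum]
      apply sum_congr rfl
      intro u hu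
      rw [mem_Icc] at hu
      rw [h8 u hu.1]
      ring
    show ‖∑ u ∈ Icc 1 (y - M), qv α β a b ((u + M : ℕ) : ℤ) * ee ((u : ℝ) * θ)‖ ≤ ε / 2 * N
    rw [h10, norm_mul]
    calc _ ≤ 1 * (ε / 2 * N) := mul_le_mul (lamZ_norm _) h6 (norm_nonneg _) (by norm_num)
      _ = _ := one_mul _)
  linarith

end Pool.Agent.E8helper80.MQ
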